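import Pool.Agent.MP_d6d24d_co.H35.Tiling

namespace Pool.Agent.Results.MP_d6d24d_co.FaceToFace

open Pool.Agent.MP_d6d24d_co.H30 Pool.Agent.MP_d6d24d_co.H35

/-- Some locally finite face-to-face tiling of `ℝ^4` by convex polytopes has no dual among all
locally finite tilings by convex polytopes (face-to-face or not). -/
theorem result :
    ∃ T : Set (Set (EuclideanSpace ℝ (Fin 4))), IsTiling T ∧ IsLocFinite T ∧ IsFaceToFace T ∧
      ∀ T' : Set (Set (EuclideanSpace ℝ (Fin 4))), IsTiling T' → IsLocFinite T' →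
        ¬ IsDual T T' :=
  ⟨tiling, tiling_isTiling, tiling_locFinite, tiling_faceToFace,
    fun _ h1 h2 => tiling_no_dual h1 h2⟩

end Pool.Agent.Results.MP_d6d24d_co.FaceToFace
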