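import Pool.Agent.MP_d6d24d_co.H30.Cubes

namespace Pool.Agent.Results.MP_d6d24d_co.NoConvexDual

open Pool.Agent.MP_d6d24d_co.H30

/-- In every dimension `d ≥ 3` some locally finite tiling by convex polytopes has no dual tiling
by convex polytopes. -/
theorem result (d : ℕ) (hd : 3 ≤ d) :
    ∃ T : Set (Set (EuclideanSpace ℝ (Fin d))), IsTiling T ∧ IsLocFinite T ∧
      ∀ T' : Set (Set (EuclideanSpace ℝ (Fin d))), IsTiling T' → ¬ IsDual T T' := by
  obtain ⟨n, rfl⟩ : ∃ n, d = n + 1 := ⟨d - 1, by omega⟩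
  exact ⟨cubeTiling n, cubeTiling_isTiling n, cubeTiling_locFinite n,
    cubeTiling_no_dual (by omega)⟩

end Pool.Agent.Results.MP_d6d24d_co.NoConvexDual
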